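import Pool.Agent.P.MP_8c7dae_pr.Reg

open MeasureTheory Filter Topology

/-- Scaling limit of the whole distance function of the random quadtree subdivision: with a
regularly varying normalisation it converges in probability, uniformly over pairs of distinct
points, to a random geodesic metric on the square that induces the Euclidean topology, and the
limiting corner to corner distance is not almost surely constant. -/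
theorem Pool.Agent.Results.MP_8c7dae_pr.MetricLimit.result
    (sq : ℕ × ℕ × ℕ → Set (ℝ × ℝ))
    (hsq : ∀ s : ℕ × ℕ × ℕ, sq s =
      Set.Icc ((s.2.1 : ℝ) / 2 ^ s.1) (((s.2.1 : ℝ) + 1) / 2 ^ s.1) ×ˢ
        Set.Icc ((s.2.2 : ℝ) / 2 ^ s.1) (((s.2.2 : ℝ) + 1) / 2 ^ s.1))
    (cfg : ((n : ℕ) → Fin (3 * n + 3 + 1)) → ℕ → List (ℕ × ℕ × ℕ))
    (hcfg : ∀ ω n, cfg ω n =
      Nat.rec (motive := fun _ => List (ℕ × ℕ × ℕ))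
        [(1, 0, 0), (1, 1, 0), (1, 0, 1), (1, 1, 1)]
        (fun k L => L.eraseIdx (ω k).val ++
          ([(0, 0), (1, 0), (0, 1), (1, 1)] : List (ℕ × ℕ)).map
            (fun d => ((L.getD (ω k).val (0, 0, 0)).1 + 1,
                       2 * (L.getD (ω k).val (0, 0, 0)).2.1 + d.1,
                       2 * (L.getD (ω k).val (0, 0, 0)).2.2 + d.2))) n)
    (M : ℕ → ((n : ℕ) → Fin (3 * n + 3 + 1)) → ℝ × ℝ → ℝ × ℝ → ℕ)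
    (hM : ∀ n ω x y, M n ω x y = sInf {m : ℕ | ∃ S : Finset (ℕ × ℕ × ℕ),
        (∀ s ∈ S, s ∈ cfg ω n) ∧ S.card = m ∧ IsConnected (⋃ s ∈ S, sq s) ∧
        (∃ s ∈ S, x ∈ sq s) ∧ (∃ s ∈ S, y ∈ sq s)})
    (P : Measure ((n : ℕ) → Fin (3 * n + 3 + 1)))
    (hP : P = Measure.infinitePi
      (fun n : ℕ => (PMF.uniformOfFintype (Fin (3 * n + 3 + 1))).toMeasure))
    (Q : Set (ℝ × ℝ)) (hQ : Q = Set.Icc 0 1 ×ˢ Set.Icc 0 1) :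
    ∃ α : ℝ, 0 < α ∧ α < 1 / 3 ∧ ∃ a : ℕ → ℝ, (∀ n, 0 < a n) ∧
      (∀ t : ℝ, 0 < t → Tendsto (fun n : ℕ => a ⌊t * n⌋₊ / a n) atTop (𝓝 (t ^ α))) ∧
      ∃ D : ((n : ℕ) → Fin (3 * n + 3 + 1)) → ℝ × ℝ → ℝ × ℝ → ℝ,
        (∀ x y, Measurable fun ω => D ω x y) ∧
        (∀ ε : ℝ, 0 < ε → Tendsto (fun n => P {ω | ∃ x ∈ Q, ∃ y ∈ Q, x ≠ y ∧
          ε < |(M n ω x y : ℝ) / a n - D ω x y|}) atTop (𝓝 0)) ∧
        (∀ᵐ ω ∂P, (∀ x ∈ Q, D ω x x = 0) ∧ (∀ x ∈ Q, ∀ y ∈ Q, D ω x y = D ω y x) ∧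
          (∀ x ∈ Q, ∀ y ∈ Q, ∀ z ∈ Q, D ω x z ≤ D ω x y + D ω y z) ∧
          (∀ ρ : ℝ, 0 < ρ → ∃ κ : ℝ, 0 < κ ∧ ∀ x ∈ Q, ∀ y ∈ Q, ρ ≤ dist x y → κ ≤ D ω x y) ∧
          (∀ ε : ℝ, 0 < ε → ∃ ρ : ℝ, 0 < ρ ∧ ∀ x ∈ Q, ∀ y ∈ Q, dist x y ≤ ρ → D ω x y ≤ ε) ∧
          ∀ x ∈ Q, ∀ y ∈ Q, ∃ z ∈ Q, D ω x z = D ω x y / 2 ∧ D ω z y = D ω x y / 2) ∧
        ∀ c : ℝ, ¬ ∀ᵐ ω ∂P, D ω (0, 0) (1, 1) = c := by
  obtain ⟨α, h1, h2, a, h3, h4, D, h5, h6, h7⟩ := Pool.Agent.P.MP_8c7dae_pr.Reg.metric_limit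
  obtain rfl : P = Pool.Agent.P.MP_8c7dae_pr.Pι := hP
  obtain rfl : Q = Pool.Agent.P.MP_8c7dae_pr.Q := hQ.trans Pool.Agent.P.MP_8c7dae_pr.Reg.Q_eq.symm
  obtain rfl : sq = Pool.Agent.P.MP_8c7dae_pr.sqN := funext hsq
  refine ⟨α, h1, h2, a, h3, h4, D, h5, fun ε hε => ?_, h7⟩
  refine ENNReal.tendsto_nhds_zero.2 fun δ hδ => ?_
  rcases eq_or_ne δ ⊤ with rfl | hδ'
  · exact Eventually.of_forall fun _ => le_top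
  filter_upwards [h6 ε δ.toReal hε (ENNReal.toReal_pos hδ.ne' hδ')] with n h
  refine le_trans (measure_mono ?_) ((ENNReal.toReal_le_toReal (measure_ne_top _ _) hδ').1 h)
  rintro ω ⟨x, hx, y, hy, hxy, h⟩
  refine ⟨x, hx, y, hy, ?_⟩
  rwa [hM, hcfg, Pool.Agent.P.MP_8c7dae_pr.Reg.bridge2 _ hxy] at h
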